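import Pool.Agent.Lib.Pad47bbQ.Closing
import Pool.Agent.Lib.Pad47bb.RatNbhd

/-!
Coverings of the interior of a cone by translates of a compact set and of finitely many rational
polyhedral cones.
-/

open Set Topology

namespace Pool.Agent.Lib.Pad47bbC

open Pool.Agent.Lib.Pad47bb Pool.Agent.Lib.Pad47bbQ

variable {V : Type*} [NormedAddCommGroup V] [NormedSpace ℝ V] [FiniteDimensional ℝ V]
  {L : Submodule ℤ V} [DiscreteTopology L] [IsZLattice ℝ L]

/-- The closing-up lemma for a closed subset `Z` of a rational polyhedral cone in `K`. -/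
theorem closing_point {K : PointedCone ℝ V} {Γ : Subgroup (V ≃ₗ[ℝ] V)} (S : Setting L K Γ)
    (s : Finset V) (hsL : (s : Set V) ⊆ L) (hsK : (s : Set V) ⊆ K)
    (hgen : ∀ x ∈ K, ∃ u : Finset V, (u : Set V) ⊆ L ∧ (u : Set V) ⊆ K ∧
      x ∈ PointedCone.hull ℝ (u : Set V))
    (Z : Set V) (hZ : Z ⊆ (PointedCone.hull ℝ (s : Set V) : Set V)) (hZc : IsClosed Z)
    (x e : V) (hx : x ∈ K) (he : e ∈ interior (K : Set V))
    (hcov : ∀ n : ℕ, ∃ g ∈ Γ, ∃ y ∈ Z, g y = x + (1 / ((n : ℝ) + 1)) • e) :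
    ∃ g ∈ Γ, ∃ y ∈ Z, g y = x := by
  classical
  obtain ⟨f, hpos, hint, -⟩ := exists_functional L K Γ S.map_lattice S.map_cone S.salient
    S.interior_nonempty
  obtain ⟨u₁, hu₁L, hu₁K, hu₁⟩ := hgen x hx
  obtain ⟨u₂, hu₂L, hu₂K, hu₂⟩ := hgen e (interior_subset he)
  set U := u₁ ∪ u₂ with hU
  have hUL : (U : Set V) ⊆ L := by
    rw [hU, Finset.coe_union]; exact union_subset hu₁L hu₂L
  have hUK : (U : Set V) ⊆ K := by
    rw [hU, Finset.coe_union]; exact union_subset hu₁K hu₂K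
  have hxU : x ∈ PointedCone.hull ℝ (U : Set V) := hull_mono_finset Finset.subset_union_left hu₁
  have heU : e ∈ PointedCone.hull ℝ (U : Set V) := hull_mono_finset Finset.subset_union_right hu₂
  obtain ⟨Φ, hΦΓ, hΦne, hΦ⟩ := dickson U (Γ : Set (V ≃ₗ[ℝ] V)) ⟨1, one_mem Γ⟩ f (by
    intro g hg a ha
    exact nat_values (L := L) hpos hint (S.map_lattice g hg a (hUL ha))
      (S.map_cone g hg a (hUK ha)))
  let xs : ℕ → V := fun n => x + (1 / ((n : ℝ) + 1)) • e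
  have hxsint : ∀ n, xs n ∈ interior (K : Set V) := by
    intro n
    show x + (1 / ((n : ℝ) + 1)) • e ∈ _
    rw [add_comm]
    exact interior_add_mem (interior_smul_mem he (by positivity)) hx
  have hxsU : ∀ n, xs n ∈ PointedCone.hull ℝ (U : Set V) := fun n =>
    Submodule.add_mem _ hxU (PointedCone.smul_mem _ (by positivity) heU)
  have hmin : ∀ n, ∃ φ ∈ Φ, ∀ g ∈ Γ, f (φ (xs n)) ≤ f (g (xs n)) := by
    intro n
    obtain ⟨φ, hφ, hφmin⟩ := Φ.exists_min_image (fun ψ => f (ψ (xs n))) hΦne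
    refine ⟨φ, hφ, fun g hg => ?_⟩
    obtain ⟨ψ, hψ, hψx⟩ := hΦ g hg
    exact (hφmin ψ hψ).trans (hψx _ (hxsU n))
  choose φs hφs hφmin using hmin
  -- a constant subsequence
  obtain ⟨φ, hφinf⟩ : ∃ φ : V ≃ₗ[ℝ] V, {n : ℕ | φs n = φ}.Infinite := by
    by_contra h
    push Not at h
    have h1 : (⋃ φ ∈ (Φ : Set (V ≃ₗ[ℝ] V)), {n : ℕ | φs n = φ}).Finite :=
      Φ.finite_toSet.biUnion fun φ _ => h φ
    refine Set.infinite_univ (α := ℕ) (h1.subset ?_)
    intro n _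
    exact mem_biUnion (x := φs n) (hφs n) rfl
  obtain ⟨n₀, hn₀⟩ := hφinf.nonempty
  have hφΓ : φ ∈ Γ := by
    have h1 := hΦΓ (hφs n₀)
    have h2 : φs n₀ = φ := hn₀
    rw [h2] at h1
    exact h1
  have hfin := finite_minimizers S s hsL hsK f hpos hint
  -- the closed set
  let Y : Set V := ⋃ γ ∈ {γ : V ≃ₗ[ℝ] V | γ ∈ Γ ∧ ∃ z ∈ PointedCone.hull ℝ (s : Set V),
    z ∈ interior (K : Set V) ∧ ∀ g ∈ Γ, f (γ z) ≤ f (g z)}, (γ : V → V) '' Z
  have hYcl : IsClosed Y := by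
    refine hfin.isClosed_biUnion fun γ _ => ?_
    exact γ.toContinuousLinearEquiv.toHomeomorph.isClosedMap _ hZc
  have hmemY : ∀ n ∈ {n : ℕ | φs n = φ}, φ (xs n) ∈ Y := by
    intro n hn
    have hn' : φs n = φ := hn
    have hint' : φ (xs n) ∈ interior (K : Set V) := interior_map_mem (S.map_cone φ hφΓ) (hxsint n)
    obtain ⟨γ₀, hγ₀, z, hz, hγ₀z⟩ := hcov n
    have hγ : φ * γ₀ ∈ Γ := mul_mem hφΓ hγ₀
    have hγz : (φ * γ₀) z = φ (xs n) := by
      show φ (γ₀ z) = φ (xs n)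
      rw [hγ₀z]
    set γ := φ * γ₀
    refine mem_biUnion (x := γ) ⟨hγ, z, hZ hz, ?_, ?_⟩ ⟨z, hz, hγz⟩
    · have h1 : z = γ⁻¹ (φ (xs n)) := by
        rw [← hγz]; exact (γ.symm_apply_apply z).symm
      rw [h1]
      exact interior_map_mem (S.map_cone _ (inv_mem hγ)) hint'
    · intro g hg
      have h1 : z = γ⁻¹ (φ (xs n)) := by
        rw [← hγz]; exact (γ.symm_apply_apply z).symm
      rw [hγz]
      have h2 := hφmin n (g * γ⁻¹ * φ) (mul_mem (mul_mem hg (inv_mem hγ)) hφΓ)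
      rw [hn'] at h2
      have h3 : (g * γ⁻¹ * φ) (xs n) = g z := by
        rw [h1]; rfl
      rwa [h3] at h2
  have hlim : Filter.Tendsto (fun n => φ (xs n)) Filter.atTop (𝓝 (φ x)) := by
    have h1 : Filter.Tendsto xs Filter.atTop (𝓝 x) := by
      have h2 : Filter.Tendsto (fun n : ℕ => (1 / ((n : ℝ) + 1))) Filter.atTop (𝓝 0) :=
        tendsto_one_div_add_atTop_nhds_zero_nat
      have h3 := (tendsto_const_nhds (x := x)).add (h2.smul_const e)
      simpa [xs] using h3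
    exact (φ.toContinuousLinearEquiv.continuous.tendsto x).comp h1
  have hxY : φ x ∈ Y := by
    rw [← hYcl.closure_eq, mem_closure_iff_frequently]
    refine hlim.frequently (p := fun y => y ∈ Y) ?_
    rw [Filter.frequently_atTop]
    intro N
    obtain ⟨n, hn, hNn⟩ := hφinf.exists_gt N
    exact ⟨n, hNn.le, hmemY n hn⟩
  simp only [Y, mem_iUnion] at hxY
  obtain ⟨γ, ⟨hγ, -⟩, y, hy, hyx⟩ := hxY
  refine ⟨φ⁻¹ * γ, mul_mem (inv_mem hφΓ) hγ, y, hy, ?_⟩
  show φ⁻¹ (γ y) = x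
  rw [hyx]
  exact φ.symm_apply_apply x

omit [FiniteDimensional ℝ V] in
/-- The cone over a compact set not containing the origin is closed. -/
theorem isClosed_cone_of_isCompact {Q : Set V} (hQ : IsCompact Q) (h0 : (0 : V) ∉ Q) :
    IsClosed {y : V | ∃ c : ℝ, 0 ≤ c ∧ ∃ q ∈ Q, y = c • q} := by
  rcases Q.eq_empty_or_nonempty with rfl | hne
  · have : {y : V | ∃ c : ℝ, 0 ≤ c ∧ ∃ q ∈ (∅ : Set V), y = c • q} = ∅ := by
      ext y; simp
    rw [this]
    exact isClosed_empty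
  obtain ⟨q₀, hq₀, hmin⟩ := hQ.exists_isMinOn hne continuous_norm.continuousOn
  have hq₀0 : 0 < ‖q₀‖ := norm_pos_iff.2 fun h => h0 (h ▸ hq₀)
  have hmin' : ∀ q ∈ Q, ‖q₀‖ ≤ ‖q‖ := fun q hq => hmin hq
  have hcomp : ∀ M : ℝ, IsCompact ((fun p : ℝ × V => p.1 • p.2) '' (Icc 0 M ×ˢ Q)) := fun M =>
    (isCompact_Icc.prod hQ).image (continuous_fst.smul continuous_snd)
  rw [← closure_subset_iff_isClosed]
  intro x hx
  set Y : Set V := {y : V | ∃ c : ℝ, 0 ≤ c ∧ ∃ q ∈ Q, y = c • q}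
  have hopen : IsOpen {y : V | ‖y‖ < ‖x‖ + 1} := isOpen_lt continuous_norm continuous_const
  have hx2 : x ∈ closure (Y ∩ {y | ‖y‖ < ‖x‖ + 1}) := by
    rw [mem_closure_iff_nhds]
    intro U hU
    have h3 : U ∩ {y : V | ‖y‖ < ‖x‖ + 1} ∈ 𝓝 x :=
      Filter.inter_mem hU (hopen.mem_nhds (by show ‖x‖ < ‖x‖ + 1; linarith))
    obtain ⟨y, hy1, hy2⟩ := mem_closure_iff_nhds.1 hx _ h3
    exact ⟨y, hy1.1, hy2, hy1.2⟩
  have h4 : closure (Y ∩ {y | ‖y‖ < ‖x‖ + 1}) ⊆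
      (fun p : ℝ × V => p.1 • p.2) '' (Icc 0 ((‖x‖ + 1) / ‖q₀‖) ×ˢ Q) := by
    refine closure_minimal ?_ (hcomp _).isClosed
    rintro y ⟨⟨c, hc, q, hq, rfl⟩, hy⟩
    refine ⟨(c, q), ⟨⟨hc, ?_⟩, hq⟩, rfl⟩
    show c ≤ (‖x‖ + 1) / ‖q₀‖
    rw [le_div_iff₀ hq₀0]
    have h5 : ‖c • q‖ < ‖x‖ + 1 := hy
    rw [norm_smul, Real.norm_of_nonneg hc] at h5
    have h6 := mul_le_mul_of_nonneg_left (hmin' q hq) hc
    linarith
  obtain ⟨⟨c, q⟩, ⟨hc, hq⟩, rfl⟩ := h4 hx2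
  exact ⟨c, hc.1, q, hq, rfl⟩

/-- A cone which is locally rational polyhedral at `q ≠ 0` coincides near `q` with a rational
polyhedral subcone, which, apart from the origin, lies in a given open cone around `q`. -/
theorem exists_ratPoly_local {N E : PointedCone ℝ V} {q : V} (hq0 : q ≠ 0) (_hqN : q ∈ N)
    (hqE : q ∈ interior (E : Set V)) {P' : PointedCone ℝ V} (hP' : IsRatPoly L P') {U : Set V}
    (hU : U ∈ 𝓝 q) (hUN : U ∩ (N : Set V) = U ∩ (P' : Set V)) :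
    ∃ P : PointedCone ℝ V, IsRatPoly L P ∧ P ≤ N ⊓ E ∧
      (∀ x ∈ P, x ≠ 0 → x ∈ interior (E : Set V)) ∧ ∃ U' ∈ 𝓝 q, U' ∩ (N : Set V) ⊆ P := by
  classical
  let b₀ := Module.Free.chooseBasis ℤ L
  let b := b₀.ofZLatticeBasis ℝ L
  let ι := Module.Free.ChooseBasisIndex ℤ L
  -- integral coordinates
  let β : ι → V →L[ℝ] ℝ := fun i => LinearMap.toContinuousLinearMap (b.coord i)
  have hβ : ∀ i x, β i x = b.repr x i := fun i x => rfl
  have hβint : ∀ i, ∀ x ∈ L, ∃ n : ℤ, β i x = n := by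
    intro i x hx
    exact ⟨b₀.repr ⟨x, hx⟩ i, b₀.ofZLatticeBasis_repr_apply ℝ L ⟨x, hx⟩ i⟩
  -- a functional positive at `q`
  obtain ⟨f₀, hf₀int, hf₀q⟩ : ∃ f₀ : V →L[ℝ] ℝ, (∀ x ∈ L, ∃ n : ℤ, f₀ x = n) ∧ 0 < f₀ q := by
    have hne : ∃ i, b.repr q i ≠ 0 := by
      by_contra h
      push Not at h
      apply hq0
      apply b.repr.injective
      ext i
      simpa using h i
    obtain ⟨i, hi⟩ := hne
    rcases lt_or_gt_of_ne hi with h | h
    · refine ⟨-β i, fun x hx => ?_, ?_⟩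
      · obtain ⟨n, hn⟩ := hβint i x hx
        exact ⟨-n, by rw [neg_apply, hn]; push_cast; ring⟩
      · rw [neg_apply, hβ]; linarith
    · exact ⟨β i, hβint i, by rw [hβ]; exact h⟩
  have hU0 : U ∩ interior (E : Set V) ∈ 𝓝 q :=
    Filter.inter_mem hU (isOpen_interior.mem_nhds hqE)
  obtain ⟨r, hr, hball⟩ := Metric.mem_nhds_iff.1 hU0
  let B : ℝ := ∑ i, ‖b i‖
  have hB : 0 ≤ B := Finset.sum_nonneg fun i _ => norm_nonneg _
  obtain ⟨m, hm⟩ := exists_nat_gt (3 * f₀ q * B / r)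
  let M : ℤ := m + 1
  have hMpos : (0 : ℝ) < M := by
    show (0 : ℝ) < ((m + 1 : ℤ) : ℝ)
    push_cast
    positivity
  have hMr : 3 * f₀ q * B / M < r := by
    rw [div_lt_iff₀ hMpos]
    rw [div_lt_iff₀ hr] at hm
    have : (M : ℝ) = m + 1 := by
      show ((m + 1 : ℤ) : ℝ) = m + 1
      push_cast
      ring
    rw [this]
    nlinarith
  let k : ι → ℤ := fun i => ⌊(M : ℝ) * (β i q / f₀ q)⌋
  have hk : ∀ i, (k i : ℝ) * f₀ q ≤ M * β i q ∧ M * β i q < (k i + 1) * f₀ q := by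
    intro i
    have h1 : (k i : ℝ) ≤ M * (β i q / f₀ q) := Int.floor_le _
    have h2 : (M : ℝ) * (β i q / f₀ q) < k i + 1 := Int.lt_floor_add_one _
    constructor
    · have := mul_le_mul_of_nonneg_right h1 hf₀q.le
      rwa [mul_assoc, div_mul_cancel₀ _ hf₀q.ne'] at this
    · have := mul_lt_mul_of_pos_right h2 hf₀q
      rwa [mul_assoc, div_mul_cancel₀ _ hf₀q.ne'] at this
  let η₁ : ι → V →L[ℝ] ℝ := fun i => (M : ℝ) • β i - ((k i : ℝ) - 1) • f₀
  let η₂ : ι → V →L[ℝ] ℝ := fun i => ((k i : ℝ) + 2) • f₀ - (M : ℝ) • β i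
  have hη₁ : ∀ i x, η₁ i x = M * β i x - (k i - 1) * f₀ x := by
    intro i x
    simp only [η₁, sub_apply, smul_apply, smul_eq_mul]
  have hη₂ : ∀ i x, η₂ i x = (k i + 2) * f₀ x - M * β i x := by
    intro i x
    simp only [η₂, sub_apply, smul_apply, smul_eq_mul]
  have hη₁int : ∀ i ∈ (Finset.univ : Finset ι), ∀ x ∈ L, ∃ n : ℤ, η₁ i x = n := by
    intro i _ x hx
    obtain ⟨n, hn⟩ := hβint i x hx
    obtain ⟨n', hn'⟩ := hf₀int x hx
    refine ⟨M * n - (k i - 1) * n', ?_⟩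
    rw [hη₁, hn, hn']
    push_cast
    ring
  have hη₂int : ∀ i ∈ (Finset.univ : Finset ι), ∀ x ∈ L, ∃ n : ℤ, η₂ i x = n := by
    intro i _ x hx
    obtain ⟨n, hn⟩ := hβint i x hx
    obtain ⟨n', hn'⟩ := hf₀int x hx
    refine ⟨(k i + 2) * n' - M * n, ?_⟩
    rw [hη₂, hn, hn']
    push_cast
    ring
  let P : PointedCone ℝ V := (P' ⊓ ⨅ i ∈ (Finset.univ : Finset ι), halfSpace (η₁ i)) ⊓
    ⨅ i ∈ (Finset.univ : Finset ι), halfSpace (η₂ i)
  have hPmem : ∀ x, x ∈ P ↔ x ∈ P' ∧ (∀ i, 0 ≤ η₁ i x) ∧ ∀ i, 0 ≤ η₂ i x := by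
    intro x
    simp only [P, Submodule.mem_inf, Submodule.mem_iInf, mem_halfSpace, Finset.mem_univ,
      forall_true_left, and_assoc]
  have hPP : IsRatPoly L P := (hP'.inf_halfSpaces _ _ hη₁int).inf_halfSpaces _ _ hη₂int
  have hmain : ∀ x ∈ P, x ≠ 0 → x ∈ N ∧ x ∈ interior (E : Set V) := by
    intro x hx hx0
    obtain ⟨hxP', h1, h2⟩ := (hPmem x).1 hx
    have hι : Nonempty ι := by
      by_contra h
      rw [not_nonempty_iff] at h
      apply hx0
      apply b.repr.injective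
      ext i
      exact (h.false i).elim
    have hf0 : 0 ≤ f₀ x := by
      obtain ⟨i⟩ := hι
      have e1 := h1 i
      have e2 := h2 i
      rw [hη₁] at e1
      rw [hη₂] at e2
      linarith
    have hfpos : 0 < f₀ x := by
      rcases hf0.eq_or_lt with h | h
      · exfalso
        apply hx0
        apply b.repr.injective
        ext i
        have e1 := h1 i
        have e2 := h2 i
        rw [hη₁, ← h, mul_zero, sub_zero] at e1
        rw [hη₂, ← h, mul_zero, zero_sub] at e2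
        have e3 : (M : ℝ) * β i x = 0 := by linarith
        rcases mul_eq_zero.1 e3 with e | e
        · exact absurd e hMpos.ne'
        · simpa [hβ] using e
      · exact h
    set t : ℝ := f₀ q / f₀ x with ht
    have htpos : 0 < t := div_pos hf₀q hfpos
    have hft : f₀ (t • x) = f₀ q := by
      rw [map_smul, smul_eq_mul, ht, div_mul_cancel₀ _ hfpos.ne']
    have hnear : t • x ∈ Metric.ball q r := by
      rw [Metric.mem_ball, dist_eq_norm]
      have h3 : t • x - q = ∑ i, (β i (t • x) - β i q) • b i := by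
        simp only [sub_smul, Finset.sum_sub_distrib]
        rw [show ∑ i, β i (t • x) • b i = t • x from b.sum_repr (t • x),
          show ∑ i, β i q • b i = q from b.sum_repr q]
      have h4 : ∀ i, |β i (t • x) - β i q| ≤ 3 * f₀ q / M := by
        intro i
        have e1 := mul_nonneg htpos.le (h1 i)
        have e2 := mul_nonneg htpos.le (h2 i)
        have e1' : 0 ≤ η₁ i (t • x) := by rw [map_smul, smul_eq_mul]; exact e1
        have e2' : 0 ≤ η₂ i (t • x) := by rw [map_smul, smul_eq_mul]; exact e2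
        rw [hη₁, hft] at e1'
        rw [hη₂, hft] at e2'
        obtain ⟨k1, k2⟩ := hk i
        rw [le_div_iff₀ hMpos, ← abs_of_pos hMpos, ← abs_mul, abs_le]
        constructor <;> nlinarith
      calc ‖t • x - q‖ = ‖∑ i, (β i (t • x) - β i q) • b i‖ := by rw [h3]
        _ ≤ ∑ i, ‖(β i (t • x) - β i q) • b i‖ := norm_sum_le _ _
        _ ≤ ∑ i, 3 * f₀ q / M * ‖b i‖ := by
            refine Finset.sum_le_sum fun i _ => ?_
            rw [norm_smul, Real.norm_eq_abs]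
            exact mul_le_mul_of_nonneg_right (h4 i) (norm_nonneg _)
        _ = 3 * f₀ q * B / M := by
            rw [← Finset.mul_sum]
            ring
        _ < r := hMr
    obtain ⟨hxU, hxE⟩ := hball hnear
    have hxN : t • x ∈ (N : Set V) := by
      have : t • x ∈ U ∩ (P' : Set V) := ⟨hxU, PointedCone.smul_mem _ htpos.le hxP'⟩
      rw [← hUN] at this
      exact this.2
    have hxt : x = t⁻¹ • (t • x) := by
      rw [smul_smul, inv_mul_cancel₀ htpos.ne', one_smul]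
    rw [hxt]
    exact ⟨PointedCone.smul_mem _ (inv_nonneg.2 htpos.le) hxN,
      interior_smul_mem hxE (inv_pos.2 htpos)⟩
  refine ⟨P, hPP, ?_, fun x hx hx0 => (hmain x hx hx0).2, ?_⟩
  · intro x hx
    by_cases hx0 : x = 0
    · rw [hx0]; exact zero_mem _
    · exact ⟨(hmain x hx hx0).1, interior_subset (hmain x hx hx0).2⟩
  · refine ⟨U ∩ {x | (∀ i, 0 < η₁ i x) ∧ ∀ i, 0 < η₂ i x}, Filter.inter_mem hU ?_, ?_⟩
    · have hopen : IsOpen {x | (∀ i, 0 < η₁ i x) ∧ ∀ i, 0 < η₂ i x} := by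
        have h1 : {x | (∀ i, 0 < η₁ i x) ∧ ∀ i, 0 < η₂ i x} =
            (⋂ i, {x | 0 < η₁ i x}) ∩ ⋂ i, {x | 0 < η₂ i x} := by
          ext x
          simp
        rw [h1]
        exact (isOpen_iInter_of_finite fun i => isOpen_lt continuous_const (η₁ i).continuous).inter
          (isOpen_iInter_of_finite fun i => isOpen_lt continuous_const (η₂ i).continuous)
      refine hopen.mem_nhds ⟨fun i => ?_, fun i => ?_⟩
      · rw [hη₁]
        obtain ⟨k1, k2⟩ := hk i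
        nlinarith
      · rw [hη₂]
        obtain ⟨k1, k2⟩ := hk i
        nlinarith
    · rintro x ⟨⟨hxU, h1, h2⟩, hxN⟩
      have : x ∈ U ∩ (P' : Set V) := by
        rw [← hUN]
        exact ⟨hxU, hxN⟩
      exact (hPmem x).2 ⟨this.2, fun i => (h1 i).le, fun i => (h2 i).le⟩

/-- A compact set of points at which `N` is locally rational polyhedral is contained in a rational
polyhedral subcone. -/
theorem exists_ratPoly_compact {N E : PointedCone ℝ V} {Q : Set V} (hQ : IsCompact Q)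
    (h0 : (0 : V) ∉ Q) (hQN : Q ⊆ (N : Set V)) (hQE : Q ⊆ interior (E : Set V))
    (hloc : ∀ q ∈ Q, ∃ P' : PointedCone ℝ V, IsRatPoly L P' ∧ ∃ U ∈ 𝓝 q,
      U ∩ (N : Set V) = U ∩ (P' : Set V)) :
    ∃ P : PointedCone ℝ V, IsRatPoly L P ∧ P ≤ N ⊓ E ∧ Q ⊆ (P : Set V) := by
  classical
  have h1 : ∀ q ∈ Q, ∃ P : PointedCone ℝ V, IsRatPoly L P ∧ P ≤ N ⊓ E ∧
      ∃ U' ∈ 𝓝 q, U' ∩ (N : Set V) ⊆ P := by
    intro q hq
    obtain ⟨P', hP', U, hU, hUN⟩ := hloc q hq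
    obtain ⟨P, hP, hPN, -, U', hU', hU'N⟩ := exists_ratPoly_local
      (fun h => h0 (h ▸ hq)) (hQN hq) (hQE hq) hP' hU hUN
    exact ⟨P, hP, hPN, U', hU', hU'N⟩
  choose! P hP hPN U' hU' hU'N using h1
  obtain ⟨t, htQ, hcov⟩ := hQ.elim_nhds_subcover U' hU'
  refine ⟨⨆ q ∈ t, P q, IsRatPoly.biSup t P fun q hq => hP q (htQ q hq), ?_, ?_⟩
  · exact iSup₂_le fun q hq => hPN q (htQ q hq)
  · intro x hx
    have := hcov hx
    simp only [mem_iUnion] at this
    obtain ⟨q, hq, hxq⟩ := this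
    have h2 : P q ≤ ⨆ q ∈ t, P q := le_iSup₂ (f := fun q (_ : q ∈ t) => P q) q hq
    exact h2 (hU'N q (htQ q hq) ⟨hxq, hQN hx⟩)

end Pool.Agent.Lib.Pad47bbC
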